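import Pool.Agent.Helper92.LV.Stmts2

open Filter Topology NumberField

namespace Pool.Agent.Helper92.LV

open Pool.Agent.Helper42.LS Pool.Agent.Helper42.LK Pool.Agent.Helper54.LM

theorem pher_posdef {m : ℕ} {c' : ℝ} (hc' : 0 < c')
    (h : ∀ G : Matrix (Fin m) (Fin m) ℝ, G.PosDef → ∀ T : ℝ, 0 < T → ∃ S : Finset (Fin m → ℤ),
      c' * T ^ ((m : ℝ) / 2) ≤ S.card * √G.det ∧ ∀ a ∈ S, ∀ b ∈ S, qf G (a - b) ≤ T)
    (G : Matrix (Fin m) (Fin m) ℝ) (hG : G.PosDef) (μ : ℝ) (hμ : 0 < μ)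
    (hk : ∀ k : Fin m → ℤ, k ≠ 0 → μ ≤ qf G k) : c' ^ 2 / 2 ^ m * μ ^ m ≤ G.det := by
  obtain ⟨S, hS, hab⟩ := h G hG (μ / 2) (by positivity)
  have hdet : 0 ≤ G.det := hG.det_pos.le
  have hcard : S.card ≤ 1 := by
    rw [Finset.card_le_one]
    intro a ha b hb
    by_contra hne
    have h1 := hab a ha b hb
    have h2 := hk (a - b) (sub_ne_zero.mpr hne)
    linarith
  have h1 : c' * (μ / 2) ^ ((m : ℝ) / 2) ≤ √G.det := by
    refine hS.trans ?_
    have : (S.card : ℝ) ≤ 1 := by exact_mod_cast hcard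
    nlinarith [Real.sqrt_nonneg G.det]
  have h2 : (c' * (μ / 2) ^ ((m : ℝ) / 2)) ^ 2 ≤ G.det := by
    calc (c' * (μ / 2) ^ ((m : ℝ) / 2)) ^ 2 ≤ (√G.det) ^ 2 :=
          pow_le_pow_left₀ (by positivity) h1 2
      _ = G.det := Real.sq_sqrt hdet
  have h3 : ((μ / 2) ^ ((m : ℝ) / 2)) ^ 2 = (μ / 2) ^ m := by
    rw [← Real.rpow_natCast ((μ / 2) ^ ((m : ℝ) / 2)) 2, ← Real.rpow_mul (by positivity)]
    rw [← Real.rpow_natCast (μ / 2) m]
    congr 1
    push_cast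
    ring
  rw [mul_pow, h3, div_pow] at h2
  calc c' ^ 2 / 2 ^ m * μ ^ m = c' ^ 2 * (μ ^ m / 2 ^ m) := by ring
    _ ≤ G.det := h2

theorem st_PHER (h : Pool.Agent.Helper54.LM.ST_LBF) : ST_PHER := by
  intro m hm
  obtain ⟨c', hc', h⟩ := h m
  refine ⟨c' ^ 2 / 2 ^ m, by positivity, ?_⟩
  intro G hG μ hμ hk
  rcases hμ.eq_or_lt with h0 | hμ
  · rw [← h0, zero_pow (by omega), mul_zero]
    exact hG.det_nonneg
  have hG' : ∀ ε : ℝ, 0 < ε → (G + ε • (1 : Matrix (Fin m) (Fin m) ℝ)).PosDef := by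
    intro ε hε
    exact Matrix.PosDef.posSemidef_add hG (Matrix.PosDef.one.smul hε)
  have hqf : ∀ ε : ℝ, 0 < ε → ∀ k : Fin m → ℤ,
      qf G k ≤ qf (G + ε • (1 : Matrix (Fin m) (Fin m) ℝ)) k := by
    intro ε hε k
    have e : qf (G + ε • (1 : Matrix (Fin m) (Fin m) ℝ)) k =
        qf G k + ε * ∑ i, (k i : ℝ) * (k i : ℝ) := by
      unfold qf
      rw [Finset.mul_sum, ← Finset.sum_add_distrib]
      refine Finset.sum_congr rfl fun i _ => ?_
      have : ∀ j, (k i : ℝ) * (k j : ℝ) * (G + ε • (1 : Matrix (Fin m) (Fin m) ℝ)) i j =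
          (k i : ℝ) * (k j : ℝ) * G i j + if i = j then ε * ((k i : ℝ) * (k j : ℝ)) else 0 := by
        intro j
        rw [Matrix.add_apply, Matrix.smul_apply, Matrix.one_apply]
        split_ifs
        · simp only [smul_eq_mul]; ring
        · simp
      rw [Finset.sum_congr rfl fun j _ => this j, Finset.sum_add_distrib]
      simp
    rw [e]
    have : 0 ≤ ∑ i, (k i : ℝ) * (k i : ℝ) := Finset.sum_nonneg fun i _ => mul_self_nonneg _
    nlinarith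
  have hT : Tendsto (fun n : ℕ => (G + (1 / ((n : ℝ) + 1)) • (1 : Matrix (Fin m) (Fin m) ℝ)).det)
      atTop (𝓝 (G + (0 : ℝ) • (1 : Matrix (Fin m) (Fin m) ℝ)).det) := by
    have hc : Continuous fun ε : ℝ => (G + ε • (1 : Matrix (Fin m) (Fin m) ℝ)).det :=
      Continuous.matrix_det (by fun_prop)
    exact (hc.tendsto 0).comp tendsto_one_div_add_atTop_nhds_zero_nat
  rw [zero_smul, add_zero] at hT
  refine ge_of_tendsto' hT fun n => ?_
  have hε : 0 < 1 / ((n : ℝ) + 1) := by positivity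
  exact pher_posdef hc' h _ (hG' _ hε) μ hμ fun k hk0 => (hk k hk0).trans (hqf _ hε k)

end Pool.Agent.Helper92.LV
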